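import Pool.Agent.RSG.Defs

/-!
# LKZ/Defs: links in a 3-manifold, twins and Gluck twists, definitions

The definitions of `RSG/Defs` for links.  `ex x = exp (2πix)`; `S2`, `S3`, `S4` are the unit spheres; on `S4` we use the
coordinates `c1 z`, `c2 z` in `C` and `ht z` in `R`.  `{z in S4 | fh z ≠ 0}` is the complement of the standard torus
`|c1| = |c2|, ht = 0`; it is the interior of the Montesinos twin, a neighbourhood of the two spheres `c1 = 0` and `c2 = 0`,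
which meet transversally in the two points `(0, 0, ±1)`.
-/

open scoped Manifold ContDiff
open Complex (I)
open Pool.Agent.RSG

namespace Pool.Agent.LKZ

section
variable {N : Type*} [TopologicalSpace N] [ChartedSpace E3 N] {ι : Type*}

/-- A thick link in the 3-manifold `N`: thick knots `κ i` (framed knots with open tubular neighbourhoods) whose tubular
neighbourhoods are disjoint. -/
structure ThickL (κ : ι → ℝ × ℂ → N) : Prop where
  thick : ∀ i, Thick (κ i)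
  disj : ∀ (i i' : ι) (l : ℝ) (v : ℂ) (l' : ℝ) (v' : ℂ), ‖v‖ < 1 → ‖v'‖ < 1 → κ i (l, v) = κ i' (l', v') → i = i'

/-- `x` is a point of the link -/
def OnLink (κ : ι → ℝ × ℂ → N) (x : N) : Prop := ∃ i, OnKnot (κ i) x

/-- `X` is the union of `(N - L) × S¹` (`L` the link with the components `κ i (l, 0)`, the circle `R / Z` with coordinate
`t`; map `A`) and of one (open) twin `{fh ≠ 0}` for every component (maps `Q i`), glued as follows.  On `(N - L) × S¹`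
near the component `i` we have the angles `m, l, t`: the point `(κ i (l, r ex m), t)`, `0 < r < 1`.  It is identified with
the point `z` of the twin `i` with `2 |c1 z| |c2 z| = r`, `arg (c1 z) = a₁ m + b₁ t`, `arg (c2 z) = a₂ m + b₂ t` and
`arg (fh z) = l - n t`. -/
structure TwinL (κ : ι → ℝ × ℂ → N) (a₁ b₁ a₂ b₂ n : ι → ℤ) (X : Type*) [TopologicalSpace X] [ChartedSpace E4 X] where
  A : N × ℝ → X
  Q : ι → S4 → X
  A_per : ∀ (x : N) (t : ℝ), A (x, t + 1) = A (x, t)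
  A_loc : ∀ (x : N) (t : ℝ), ¬ OnLink κ x → IsLocalDiffeomorphAt ((𝓡 3).prod 𝓘(ℝ, ℝ)) (𝓡 4) ∞ A (x, t)
  A_inj : ∀ (x x' : N) (t t' : ℝ), ¬ OnLink κ x → ¬ OnLink κ x' → A (x, t) = A (x', t') →
    x = x' ∧ ∃ m : ℤ, t' = t + m
  Q_loc : ∀ (i : ι) (z : S4), fh z ≠ 0 → IsLocalDiffeomorphAt (𝓡 4) (𝓡 4) ∞ (Q i) z
  Q_inj : ∀ (i : ι) (z : S4) (i' : ι) (z' : S4), fh z ≠ 0 → fh z' ≠ 0 → Q i z = Q i' z' → i = i' ∧ z = z'
  glue : ∀ (i : ι) (z : S4) (l m t : ℝ), fh z ≠ 0 → c1 z ≠ 0 → c2 z ≠ 0 →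
    c1 z = ‖c1 z‖ * ex (a₁ i * m + b₁ i * t) → c2 z = ‖c2 z‖ * ex (a₂ i * m + b₂ i * t) →
    fh z = ‖fh z‖ * ex (l - n i * t) → Q i z = A (κ i (l, (2 * ‖c1 z‖ * ‖c2 z‖ : ℝ) * ex m), t)
  disj : ∀ (i : ι) (z : S4) (x : N) (t : ℝ), fh z ≠ 0 → c1 z = 0 ∨ c2 z = 0 → ¬ OnLink κ x → Q i z ≠ A (x, t)
  cover : ∀ q : X, (∃ (x : N) (t : ℝ), ¬ OnLink κ x ∧ q = A (x, t)) ∨ ∃ (i : ι) (z : S4), fh z ≠ 0 ∧ q = Q i z

/-- The link version of the `j`-twist `n`-roll spin: the meridians of the two spheres of the twin `i` are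
`t + n l + j m` (sphere `c1 = 0`) and `m` (sphere `c2 = 0`, the 2-knot `i`), with `n = n i`, `j = j i`. -/
abbrev RollSpinL (κ : ι → ℝ × ℂ → N) (n j : ι → ℤ) (X : Type*) [TopologicalSpace X]
    [ChartedSpace E4 X] := TwinL κ 0 1 1 (-j) n X

/-- `X` is the union of `(N - L) × S¹` and of the twins such that the meridians of the two spheres of the twin `i` are
`e = t + n l + j m` and `m - e`, with `n = n i`, `j = j i`. -/
abbrev RollGluckL (κ : ι → ℝ × ℂ → N) (n j : ι → ℤ) (X : Type*) [TopologicalSpace X]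
    [ChartedSpace E4 X] := TwinL κ 1 (1 - j) 1 (-j) n X

def IsRollGluckL (κ : ι → ℝ × ℂ → N) (n j : ι → ℤ) (X : Type*) [TopologicalSpace X]
    [ChartedSpace E4 X] : Prop := Nonempty (RollGluckL κ n j X)

/-- Tubular neighbourhood of the 2-knot `Q i {c2 = 0}`. -/
noncomputable def RollSpinL.tube {κ : ι → ℝ × ℂ → N} {n j : ι → ℤ} {Y : Type*} [TopologicalSpace Y]
    [ChartedSpace E4 Y] (D : RollSpinL κ n j Y) (i : ι) (q : S2 × ℂ) : Y :=
  D.Q i (pS4 (Real.sqrt (1 - ‖q.2‖ ^ 2 / 4) * hz q.1) ((starRingEnd ℂ) q.2 / 2)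
    (Real.sqrt (1 - ‖q.2‖ ^ 2 / 4) * ho q.1))

end

/-- `X` is the result of simultaneous Gluck twists of `Y` along the 2-spheres `τ i (S² × 0)` with the tubular
neighbourhoods `τ i : S² × D² → Y`: the 2-spheres are removed and replaced by copies of `S² × D²` (maps `τ' i`) with
`τ' i (y, r e^{iθ}) = τ i (rotation of y by θ, r e^{iθ})` for `0 < r < 1`. -/
structure GluckTwistL {ι Y : Type*} [TopologicalSpace Y] [ChartedSpace E4 Y] (τ : ι → S2 × ℂ → Y)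
    (X : Type*) [TopologicalSpace X] [ChartedSpace E4 X] where
  G : Y → X
  τ' : ι → S2 × ℂ → X
  G_loc : ∀ q, (∀ i y, q ≠ τ i (y, 0)) → IsLocalDiffeomorphAt (𝓡 4) (𝓡 4) ∞ G q
  G_inj : ∀ q q', (∀ i y, q ≠ τ i (y, 0)) → (∀ i y, q' ≠ τ i (y, 0)) → G q = G q' → q = q'
  τ'_loc : ∀ i y v, ‖v‖ < 1 → IsLocalDiffeomorphAt ((𝓡 2).prod 𝓘(ℝ, ℂ)) (𝓡 4) ∞ (τ' i) (y, v)
  τ'_inj : ∀ i y v i' y' v', ‖v‖ < 1 → ‖v'‖ < 1 → τ' i (y, v) = τ' i' (y', v') → i = i' ∧ y = y' ∧ v = v'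
  glue : ∀ i y v, v ≠ 0 → ‖v‖ < 1 → τ' i (y, v) = G (τ i (rotS (v / ‖v‖) y, v))
  disj : ∀ i y q, (∀ i' y', q ≠ τ i' (y', 0)) → τ' i (y, 0) ≠ G q
  cover : ∀ p, (∃ q, (∀ i y, q ≠ τ i (y, 0)) ∧ p = G q) ∨ ∃ i y, p = τ' i (y, 0)

end Pool.Agent.LKZ
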