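import Pool.Agent.LKZ.Defs
import Pool.Agent.LKF.Defs
import Pool.Agent.KNH.DicM

/-!
# LKZ/Dic: dictionary between `RollGluckL` and `TwinF` over `S3 × Circle`

Family version of `KNH/DicM`.
-/

open scoped Manifold ContDiff Topology
open Set Filter
open Complex (I)
open Pool.Agent.RSG (E4 S3 S4 ex cj pS3 c1 c2 fh)
open Pool.Agent.PTH (SP ISP)
open Pool.Agent.KNH (circ circ_eq circ_surj circ_ld prd DicM_on DicM_per prd_thick)
open Pool.Agent.LKF (LinkT OnF TwinF)

namespace Pool.Agent.LKZ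

variable {ι : Type*}

theorem Dic_on {κ : ι → ℝ × ℂ → S3} {x : S3} {z : Circle} : OnF (fun i => prd (κ i)) (x, z) ↔ OnLink κ x :=
  exists_congr fun _ => DicM_on

theorem prd_link {κ : ι → ℝ × ℂ → S3} (h : ThickL κ) : LinkT ISP fun i => prd (κ i) := by
  refine ⟨fun i => prd_thick (h.thick i), ?_⟩
  intro i i' l v t l' v' t' hv hv' he
  exact h.disj i i' l v l' v' hv hv' (congrArg Prod.fst he)

theorem dicL {κ : ι → ℝ × ℂ → S3} {n j : ι → ℤ} {X : Type*} [TopologicalSpace X] [ChartedSpace E4 X] :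
    Nonempty (TwinF ISP (fun i => prd (κ i)) n j X) ↔ IsRollGluckL κ n j X := by
  constructor
  · rintro ⟨D⟩
    refine ⟨{ A := fun p => D.A (p.1, circ p.2), Q := D.Q, A_per := ?_, A_loc := ?_, A_inj := ?_, Q_loc := D.Q_loc,
              Q_inj := D.Q_inj, glue := ?_, disj := ?_, cover := ?_ }⟩
    · intro x t
      simp only
      rw [DicM_per]
    · intro x t hx
      have h1 : IsLocalDiffeomorphAt ((𝓡 3).prod 𝓘(ℝ, ℝ)) ISP ∞ (Prod.map (id : S3 → S3) circ) (x, t) :=
        RSG.ld_prodMap (CSG.ld_id x) (circ_ld t)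
      have h2 := D.A_loc (x, circ t) (fun h => hx (Dic_on.1 h))
      exact IsLocalDiffeomorphAt.comp (hf := h1) (hg := h2) ..
    · intro x x' t t' hx hx' h
      have h1 := D.A_inj _ _ (fun h => hx (Dic_on.1 h)) (fun h => hx' (Dic_on.1 h)) h
      simp only [Prod.mk.injEq] at h1
      exact ⟨h1.1, circ_eq.1 h1.2.symm⟩
    · intro i z l m t hf h1 h2 e1 e2 e3
      have e1' : c1 z = ‖c1 z‖ * ex (m + (1 - j i) * t) := by
        rw [show (m + (1 - j i) * t : ℝ) = ((1 : ℤ) : ℝ) * m + ((1 - j i : ℤ) : ℝ) * t by push_cast; ring]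
        exact e1
      have e2' : c2 z = ‖c2 z‖ * ex (m - j i * t) := by
        rw [show (m - j i * t : ℝ) = ((1 : ℤ) : ℝ) * m + ((-(j i) : ℤ) : ℝ) * t by push_cast; ring]
        exact e2
      exact D.glue i z l m t hf h1 h2 e1' e2' e3
    · intro i z x t hf h hx
      exact D.disj i z _ hf h (fun h => hx (Dic_on.1 h))
    · intro q
      rcases D.cover q with ⟨⟨x, z⟩, hp, hq⟩ | h
      · obtain ⟨t, ht⟩ := circ_surj z
        refine Or.inl ⟨x, t, fun h => hp (Dic_on.2 h), ?_⟩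
        rw [hq]
        simp only
        rw [ht]
      · exact Or.inr h
  · rintro ⟨D⟩
    choose τ hτ using circ_surj
    have key : ∀ x t, D.A (x, τ (circ t)) = D.A (x, t) := by
      intro x t
      obtain ⟨m, hm⟩ := circ_eq.1 (hτ (circ t))
      rw [hm]
      exact RSG.GerM_per (f := fun s => D.A (x, s)) (fun s => D.A_per _ _) t m
    refine ⟨{ A := fun p => D.A (p.1, τ p.2), Q := D.Q, A_loc := ?_, A_inj := ?_, Q_loc := D.Q_loc,
              Q_inj := D.Q_inj, glue := ?_, disj := ?_, cover := ?_ }⟩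
    · rintro ⟨x, z⟩ hp
      have hx : ¬ OnLink κ x := fun h => hp (Dic_on.2 h)
      have h1 : IsLocalDiffeomorphAt ((𝓡 3).prod 𝓘(ℝ, ℝ)) ISP ∞ (Prod.map (id : S3 → S3) circ) (x, τ z) :=
        RSG.ld_prodMap (CSG.ld_id x) (circ_ld (τ z))
      have h2 : IsLocalDiffeomorphAt ((𝓡 3).prod 𝓘(ℝ, ℝ)) (𝓡 4) ∞
          ((fun p : SP => D.A (p.1, τ p.2)) ∘ (Prod.map (id : S3 → S3) circ)) (x, τ z) := by
        have e : ((fun p : SP => D.A (p.1, τ p.2)) ∘ (Prod.map (id : S3 → S3) circ)) = D.A := by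
          funext p
          exact key p.1 p.2
        rw [e]
        exact D.A_loc x (τ z) hx
      have h3 := CSG.ld_of_comp_left h2 h1
      have e3 : Prod.map (id : S3 → S3) circ (x, τ z) = (x, z) := Prod.ext rfl (hτ z)
      rw [e3] at h3
      exact h3
    · rintro ⟨x, z⟩ ⟨x', z'⟩ hp hp' h
      have hx : ¬ OnLink κ x := fun h => hp (Dic_on.2 h)
      have hx' : ¬ OnLink κ x' := fun h => hp' (Dic_on.2 h)
      obtain ⟨h1, h2⟩ := D.A_inj _ _ _ _ hx hx' h
      have h3 : z' = z := by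
        have h4 := circ_eq.2 h2
        rw [hτ, hτ] at h4
        exact h4
      exact Prod.ext h1 h3.symm
    · intro i z l m t hf h1 h2 e1 e2 e3
      have e1' : c1 z = ‖c1 z‖ * ex (((1 : ℤ) : ℝ) * m + ((1 - j i : ℤ) : ℝ) * t) := by
        rw [show ((1 : ℤ) : ℝ) * m + ((1 - j i : ℤ) : ℝ) * t = (m + (1 - j i) * t : ℝ) by push_cast; ring]
        exact e1
      have e2' : c2 z = ‖c2 z‖ * ex (((1 : ℤ) : ℝ) * m + ((-(j i) : ℤ) : ℝ) * t) := by
        rw [show ((1 : ℤ) : ℝ) * m + ((-(j i) : ℤ) : ℝ) * t = (m - j i * t : ℝ) by push_cast; ring]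
        exact e2
      have h3 := D.glue i z l m t hf h1 h2 e1' e2' e3
      rw [h3]
      exact (key _ t).symm
    · rintro i z ⟨x, w⟩ hf h hp
      exact D.disj i z x (τ w) hf h (fun h => hp (Dic_on.2 h))
    · intro q
      rcases D.cover q with ⟨x, t, hx, hq⟩ | h
      · refine Or.inl ⟨(x, circ t), fun h => hx (Dic_on.1 h), ?_⟩
        rw [hq]
        exact (key x t).symm
      · exact Or.inr h

end Pool.Agent.LKZ
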