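import Pool.Agent.LKZ.Defs
import Pool.Agent.RSG.GlkM

/-!
# LKZ/Glk: the simultaneous Gluck twist of the spheres `c2 = 0` of the twins

Family version of the last section of `RSG/GlkM`.
-/

open scoped Manifold ContDiff Topology
open Set Filter
open Complex (I)
open Pool.Agent.RSG

namespace Pool.Agent.LKZ

section main
variable {N : Type*} [TopologicalSpace N] [ChartedSpace E3 N] {ι : Type*}
    {Y : Type*} [TopologicalSpace Y] [ChartedSpace E4 Y]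
    {X : Type*} [TopologicalSpace X] [ChartedSpace E4 X] {κ : ι → ℝ × ℂ → N} {n j : ι → ℤ}
    (D : RollSpinL κ n j Y) (G : GluckTwistL D.tube X)

theorem Glk_tube (i : ι) (q : S2 × ℂ) : D.tube i q = D.Q i (GlkM_R q) := rfl

theorem Glk_nc_Q {i : ι} {z : S4} (h : fh z ≠ 0) (h2 : c2 z ≠ 0) : ∀ i' y, D.Q i z ≠ D.tube i' (y, 0) := by
  intro i' y e
  rw [Glk_tube] at e
  have := (D.Q_inj _ _ _ _ h (GlkM_core_fh y) e).2
  rw [this] at h2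
  exact h2 (GlkM_core_c2 y)

theorem Glk_nc_A {x : N} (t : ℝ) (h : ¬ OnLink κ x) : ∀ i y, D.A (x, t) ≠ D.tube i (y, 0) := by
  intro i y e
  rw [Glk_tube] at e
  exact D.disj i _ x t (GlkM_core_fh y) (Or.inr (GlkM_core_c2 y)) h e.symm

open Classical in
noncomputable def Glk_Q (i : ι) (z : S4) : X :=
  if c2 z = 0 then G.τ' i (GlkM_P z) else G.G (D.Q i (GlkM_tw z))

theorem Glk_Q_ne {i : ι} {z : S4} (h : c2 z ≠ 0) : Glk_Q D G i z = G.G (D.Q i (GlkM_tw z)) := by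
  unfold Glk_Q
  rw [if_neg h]

theorem Glk_Q_near {i : ι} {z : S4} (h : ‖c2 z‖ < 1 / 2) : Glk_Q D G i z = G.τ' i (GlkM_P z) := by
  by_cases h0 : c2 z = 0
  · unfold Glk_Q
    rw [if_pos h0]
  rw [Glk_Q_ne D G h0]
  have hv0 : (GlkM_P z).2 ≠ 0 := by
    show 2 * (starRingEnd ℂ) (c2 z) ≠ 0
    simpa using h0
  have hn : ‖(GlkM_P z).2‖ = 2 * ‖c2 z‖ := by
    show ‖2 * (starRingEnd ℂ) (c2 z)‖ = 2 * ‖c2 z‖
    rw [norm_mul, RCLike.norm_conj]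
    simp
  have hv1 : ‖(GlkM_P z).2‖ < 1 := by rw [hn]; linarith
  have hg := G.glue i (GlkM_P z).1 (GlkM_P z).2 hv0 hv1
  have hg' : G.τ' i (GlkM_P z) = G.G (D.tube i (rotS ((GlkM_P z).2 / ‖(GlkM_P z).2‖) (GlkM_P z).1,
      (GlkM_P z).2)) := hg
  rw [hg', Glk_tube]
  congr 2
  obtain ⟨f1, f2⟩ := GlkM_rot (GlkM_unit hv0) (GlkM_P z).1
  obtain ⟨y1, y2⟩ := GlkM_y (z := z) (by linarith)
  have hu : (GlkM_P z).2 / (‖(GlkM_P z).2‖ : ℂ) = (starRingEnd ℂ) (c2 z) / (‖c2 z‖ : ℂ) := by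
    rw [hn]
    show 2 * (starRingEnd ℂ) (c2 z) / ((2 * ‖c2 z‖ : ℝ) : ℂ) = _
    have : (‖c2 z‖ : ℂ) ≠ 0 := by exact_mod_cast norm_ne_zero_iff.2 h0
    push_cast
    field_simp
  unfold GlkM_R GlkM_tw
  show pS4 (c1 z * _) _ _ = pS4 _ _ _
  rw [show (starRingEnd ℂ) ((rotS ((GlkM_P z).2 / ↑‖(GlkM_P z).2‖) (GlkM_P z).1,
      (GlkM_P z).2) : S2 × ℂ).2 / 2 = c2 z from GlkM_P2 z]
  congr 1
  · show c1 z * _ = (Real.sqrt (1 - ‖(GlkM_P z).2‖ ^ 2 / 4) : ℂ) * hz (rotS _ _)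
    rw [f1, ← hu]
    nth_rewrite 1 [← y1]
    ring
  · show ht z = Real.sqrt (1 - ‖(GlkM_P z).2‖ ^ 2 / 4) * ho (rotS _ _)
    rw [f2]
    exact y2.symm

theorem Glk_Q_zero {i : ι} {z : S4} (h : c2 z = 0) : Glk_Q D G i z = G.τ' i ((GlkM_P z).1, 0) := by
  unfold Glk_Q
  rw [if_pos h]
  congr 1
  refine Prod.ext rfl ?_
  show 2 * (starRingEnd ℂ) (c2 z) = 0
  rw [h]
  simp

theorem Glk_loc {i : ι} {z : S4} (h : fh z ≠ 0) :
    IsLocalDiffeomorphAt (𝓡 4) (𝓡 4) ∞ (Glk_Q D G i) z := by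
  by_cases h0 : c2 z = 0
  · have hz1 : ‖c2 z‖ < 1 / 2 := by rw [h0]; simp
    have ev : ∀ᶠ y in 𝓝 z, ‖c2 y‖ < 1 / 2 :=
      (c2_smooth.continuous.norm.continuousAt).eventually_lt_const hz1
    have hP := GlkM_P_ld (z := z) (by linarith)
    have hv : ‖(GlkM_P z).2‖ < 1 := by
      show ‖2 * (starRingEnd ℂ) (c2 z)‖ < 1
      rw [h0]
      simp
    have hι := G.τ'_loc i (GlkM_P z).1 (GlkM_P z).2 hv
    have hι' : IsLocalDiffeomorphAt ((𝓡 2).prod 𝓘(ℝ, ℂ)) (𝓡 4) ∞ (G.τ' i) (GlkM_P z) := hι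
    have hc : IsLocalDiffeomorphAt (𝓡 4) (𝓡 4) ∞ (G.τ' i ∘ GlkM_P) z :=
      IsLocalDiffeomorphAt.comp (hf := hP) (hg := hι') ..
    refine Pool.Agent.CSG.ld_congr hc ?_
    filter_upwards [ev] with y hy using Glk_Q_near D G hy
  · have h2 : c2 (GlkM_tw z) ≠ 0 := by rw [(GlkM_tw_c h0).2.1]; exact h0
    have hf : fh (GlkM_tw z) ≠ 0 := by rw [GlkM_fh_tw h0]; exact h
    have s1 := GlkM_tw_ld h0
    have s2 : IsLocalDiffeomorphAt (𝓡 4) (𝓡 4) ∞ (D.Q i ∘ GlkM_tw) z :=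
      IsLocalDiffeomorphAt.comp (hf := s1) (hg := D.Q_loc i _ hf) ..
    have s3 : IsLocalDiffeomorphAt (𝓡 4) (𝓡 4) ∞ (G.G ∘ (D.Q i ∘ GlkM_tw)) z :=
      IsLocalDiffeomorphAt.comp (hf := s2) (hg := G.G_loc _ (Glk_nc_Q D hf h2)) ..
    refine Pool.Agent.CSG.ld_congr s3 ?_
    filter_upwards [GlkM_c2_ev h0] with y hy using Glk_Q_ne D G hy

theorem Glk_inj {i i' : ι} {z z' : S4} (h : fh z ≠ 0) (h' : fh z' ≠ 0)
    (e : Glk_Q D G i z = Glk_Q D G i' z') : i = i' ∧ z = z' := by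
  have mixed : ∀ {i i' : ι} {a b : S4}, fh a ≠ 0 → fh b ≠ 0 → c2 a = 0 → c2 b ≠ 0 →
      Glk_Q D G i a = Glk_Q D G i' b → False := by
    intro i i' a b ha hb h1 h2 e
    rw [Glk_Q_zero D G h1, Glk_Q_ne D G h2] at e
    have h2' : c2 (GlkM_tw b) ≠ 0 := by rw [(GlkM_tw_c h2).2.1]; exact h2
    have hf : fh (GlkM_tw b) ≠ 0 := by rw [GlkM_fh_tw h2]; exact hb
    exact G.disj _ _ _ (Glk_nc_Q D hf h2') e
  by_cases h1 : c2 z = 0
  · by_cases h2 : c2 z' = 0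
    · rw [Glk_Q_zero D G h1, Glk_Q_zero D G h2] at e
      obtain ⟨ei, ey, -⟩ := G.τ'_inj _ _ _ _ _ _ (by simp) (by simp) e
      refine ⟨ei, ?_⟩
      rw [GlkM_zero_eq h1, GlkM_zero_eq h2, ey]
    · exact (mixed h h' h1 h2 e).elim
  · by_cases h2 : c2 z' = 0
    · exact (mixed h' h h2 h1 e.symm).elim
    · rw [Glk_Q_ne D G h1, Glk_Q_ne D G h2] at e
      have a1 : c2 (GlkM_tw z) ≠ 0 := by rw [(GlkM_tw_c h1).2.1]; exact h1
      have a2 : fh (GlkM_tw z) ≠ 0 := by rw [GlkM_fh_tw h1]; exact h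
      have b1 : c2 (GlkM_tw z') ≠ 0 := by rw [(GlkM_tw_c h2).2.1]; exact h2
      have b2 : fh (GlkM_tw z') ≠ 0 := by rw [GlkM_fh_tw h2]; exact h'
      have e1 := G.G_inj _ _ (Glk_nc_Q D a2 a1) (Glk_nc_Q D b2 b1) e
      obtain ⟨ei, e2⟩ := D.Q_inj _ _ _ _ a2 b2 e1
      refine ⟨ei, ?_⟩
      rw [← GlkM_tw'_tw h1, ← GlkM_tw'_tw h2, e2]

end main

/-- The simultaneous Gluck twist of `RollSpinL` is `RollGluckL`. -/
theorem gluck_spinL {N : Type*} [TopologicalSpace N] [ChartedSpace E3 N] {ι : Type*}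
    {Y : Type*} [TopologicalSpace Y] [ChartedSpace E4 Y]
    {X : Type*} [TopologicalSpace X] [ChartedSpace E4 X] {κ : ι → ℝ × ℂ → N} {n j : ι → ℤ}
    (D : RollSpinL κ n j Y) (G : GluckTwistL D.tube X) : IsRollGluckL κ n j X := by
  refine ⟨⟨fun a => G.G (D.A a), Glk_Q D G, ?_, ?_, ?_, ?_, ?_, ?_, ?_, ?_⟩⟩
  · intro x t
    show G.G (D.A (x, t + 1)) = G.G (D.A (x, t))
    rw [D.A_per]
  · intro x t hx
    exact IsLocalDiffeomorphAt.comp (hf := D.A_loc x t hx) (hg := G.G_loc _ (Glk_nc_A D t hx)) ..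
  · intro x x' t t' hx hx' e
    exact D.A_inj x x' t t' hx hx' (G.G_inj _ _ (Glk_nc_A D t hx) (Glk_nc_A D t' hx') e)
  · intro i z h
    exact Glk_loc D G h
  · intro i z i' z' h h' e
    exact Glk_inj D G h h' e
  · intro i z l m t hf h1 h2 e1 e2 e3
    have a1 : c2 (GlkM_tw z) ≠ 0 := by rw [(GlkM_tw_c h2).2.1]; exact h2
    have a2 : fh (GlkM_tw z) ≠ 0 := by rw [GlkM_fh_tw h2]; exact hf
    have a3 : c1 (GlkM_tw z) ≠ 0 := by
      rw [← norm_ne_zero_iff, GlkM_norm_tw h2]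
      exact norm_ne_zero_iff.2 h1
    have e1' : c1 z = ‖c1 z‖ * ex (((1 : ℤ) : ℝ) * m + ((1 - j i : ℤ) : ℝ) * t) := e1
    have e2' : c2 z = ‖c2 z‖ * ex (((1 : ℤ) : ℝ) * m + ((-(j i) : ℤ) : ℝ) * t) := e2
    have hg := D.glue i (GlkM_tw z) l m t a2 a3 a1 ?_ ?_ ?_
    · rw [Glk_Q_ne D G h2, hg, GlkM_norm_tw h2, (GlkM_tw_c h2).2.1]
    · show c1 (GlkM_tw z) = ‖c1 (GlkM_tw z)‖ * ex (((0 : ℤ) : ℝ) * m + ((1 : ℤ) : ℝ) * t)
      rw [GlkM_norm_tw h2, (GlkM_tw_c h2).1]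
      have hn : (‖c2 z‖ : ℂ) ≠ 0 := by exact_mod_cast norm_ne_zero_iff.2 h2
      have k1 : (starRingEnd ℂ) (c2 z) / (‖c2 z‖ : ℂ) = ex (-(((1 : ℤ) : ℝ) * m + ((-(j i) : ℤ) : ℝ) * t)) := by
        rw [ex_neg]
        nth_rewrite 1 [e2']
        rw [map_mul, Complex.conj_ofReal]
        field_simp
      rw [k1]
      nth_rewrite 1 [e1']
      rw [mul_assoc, ← ex_add]
      congr 2
      push_cast
      ring
    · show c2 (GlkM_tw z) = ‖c2 (GlkM_tw z)‖ * ex (((1 : ℤ) : ℝ) * m + ((-(j i) : ℤ) : ℝ) * t)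
      rw [(GlkM_tw_c h2).2.1]
      exact e2'
    · rw [GlkM_fh_tw h2]
      exact e3
  · intro i z x t hf h12 hx e
    by_cases h2 : c2 z = 0
    · have e' : Glk_Q D G i z = G.G (D.A (x, t)) := e
      rw [Glk_Q_zero D G h2] at e'
      exact G.disj _ _ _ (Glk_nc_A D t hx) e'
    · have h1 : c1 z = 0 := h12.resolve_right h2
      have e' : Glk_Q D G i z = G.G (D.A (x, t)) := e
      rw [Glk_Q_ne D G h2] at e'
      have a1 : c2 (GlkM_tw z) ≠ 0 := by rw [(GlkM_tw_c h2).2.1]; exact h2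
      have a2 : fh (GlkM_tw z) ≠ 0 := by rw [GlkM_fh_tw h2]; exact hf
      have e1 := G.G_inj _ _ (Glk_nc_Q D a2 a1) (Glk_nc_A D t hx) e'
      refine D.disj i _ x t a2 (Or.inl ?_) hx e1
      rw [← norm_eq_zero, GlkM_norm_tw h2, h1, norm_zero]
  · intro p
    rcases G.cover p with ⟨q, hq, rfl⟩ | ⟨i, y, rfl⟩
    · rcases D.cover q with ⟨x, t, hx, rfl⟩ | ⟨i, z', hz', rfl⟩
      · exact Or.inl ⟨x, t, hx, rfl⟩
      · right
        have h2 : c2 z' ≠ 0 := by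
          intro h0
          refine hq i (GlkM_P z').1 ?_
          rw [Glk_tube, ← GlkM_zero_eq h0]
        have b1 : c2 (GlkM_tw' z') ≠ 0 := by rw [(GlkM_tw'_c h2).2.1]; exact h2
        refine ⟨i, GlkM_tw' z', by rw [GlkM_fh_tw' h2]; exact hz', ?_⟩
        rw [Glk_Q_ne D G b1, GlkM_tw_tw' h2]
    · right
      refine ⟨i, GlkM_R (y, 0), GlkM_core_fh y, ?_⟩
      rw [Glk_Q_zero D G (GlkM_core_c2 y), GlkM_P_R (by simp)]

end Pool.Agent.LKZ
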