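import Pool.Agent.LKZ.Glk
import Pool.Agent.LKZ.Dic
import Pool.Agent.LKS.Ind
import Pool.Agent.LKS.Uni
import Pool.Agent.LKB.Fin

/-!
# LKZ/Top: all links (assembly)
-/

open scoped Manifold ContDiff Topology
open Set Filter
open Pool.Agent.RSG (E4 S3)
open Pool.Agent.PTH (SP ISP)
open Pool.Agent.LKB (Mf BSum)

namespace Pool.Agent.LKZ

universe u v

/-- **All links.** -/
theorem link_all {r : ℕ} {κ : Fin (r + 1) → ℝ × ℂ → S3} (h : ThickL κ) (n j : Fin (r + 1) → ℤ) :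
    ∃ M : Mf, BSum r M ∧ IsRollGluckL κ n j M.X ∧
      (∀ (X : Type u) [TopologicalSpace X] [ChartedSpace E4 X] [T2Space X],
        IsRollGluckL κ n j X → Nonempty (X ≃ₘ⟮𝓡 4, 𝓡 4⟯ M.X)) ∧
      ∀ (Y : Type v) [TopologicalSpace Y] [ChartedSpace E4 Y] (D : RollSpinL κ n j Y)
        (X : Type u) [TopologicalSpace X] [ChartedSpace E4 X] [T2Space X]
        (_ : GluckTwistL D.tube X), Nonempty (X ≃ₘ⟮𝓡 4, 𝓡 4⟯ M.X) := by
  obtain ⟨M, hM, hD⟩ := LKS.fin4 (k := r) (by simp) (prd_link h) (fun i => KNH.prd_equi (κ i))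
    (c := fun i l => κ i (l, 0)) (fun i l => KNH.prd_core l) n j
  have hu : ∀ (X : Type u) [TopologicalSpace X] [ChartedSpace E4 X] [T2Space X],
      IsRollGluckL κ n j X → Nonempty (X ≃ₘ⟮𝓡 4, 𝓡 4⟯ M.X) := by
    intro X _ _ _ hX
    obtain ⟨D⟩ := hD
    obtain ⟨D'⟩ := dicL.2 hX
    obtain ⟨G, -⟩ := LKS.twin_uniq (prd_link h) D' D
    exact ⟨G⟩
  refine ⟨M, LKB.std_bsum r M hM, dicL.1 hD, hu, ?_⟩
  intro Y _ _ D X _ _ _ G
  exact hu X (gluck_spinL D G)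

end Pool.Agent.LKZ
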